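import Pool.Agent.Helper42.RZ2.Basic

/-! # RZ2-R3: value at a point minus mean over a centred cell: second differences -/

set_option autoImplicit false

open MeasureTheory Set Metric Filter Topology
open scoped ENNReal

namespace Pool.Agent.Helper91.RZ2

open Pool.Agent.Helper42.RZ Pool.Agent.Helper42.RZ2

/-- first derivative of the damped kernel -/
noncomputable def d1 (s w r : ℝ) : ℝ := -(s * r ^ (-s - 1) + w * r ^ (-s)) * Real.exp (-w * r)

/-- second derivative of the damped kernel -/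
noncomputable def d2 (s w r : ℝ) : ℝ :=
  (s * (s + 1) * r ^ (-s - 2) + 2 * s * w * r ^ (-s - 1) + w ^ 2 * r ^ (-s)) * Real.exp (-w * r)

theorem hasDerivAt_ph {s w r : ℝ} (hr : 0 < r) : HasDerivAt (ph s w) (d1 s w r) r := by
  have h1 : HasDerivAt (fun r : ℝ => r ^ (-s)) (-s * r ^ (-s - 1)) r :=
    Real.hasDerivAt_rpow_const (Or.inl hr.ne')
  have h2 : HasDerivAt (fun r : ℝ => Real.exp (-w * r)) (Real.exp (-w * r) * (-w)) r := by
    have := ((hasDerivAt_id r).const_mul (-w)).exp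
    simpa using this
  have h3 : HasDerivAt (ph s w)
      (-s * r ^ (-s - 1) * Real.exp (-w * r) + r ^ (-s) * (Real.exp (-w * r) * -w)) r := h1.mul h2
  refine h3.congr_deriv ?_
  rw [d1]; ring

theorem hasDerivAt_d1 {s w r : ℝ} (hr : 0 < r) : HasDerivAt (d1 s w) (d2 s w r) r := by
  have h1 : HasDerivAt (fun r : ℝ => r ^ (-s)) (-s * r ^ (-s - 1)) r :=
    Real.hasDerivAt_rpow_const (Or.inl hr.ne')
  have h1' : HasDerivAt (fun r : ℝ => r ^ (-s - 1)) ((-s - 1) * r ^ (-s - 1 - 1)) r :=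
    Real.hasDerivAt_rpow_const (Or.inl hr.ne')
  have h2 : HasDerivAt (fun r : ℝ => Real.exp (-w * r)) (Real.exp (-w * r) * (-w)) r := by
    have := ((hasDerivAt_id r).const_mul (-w)).exp
    simpa using this
  have h3 := (((h1'.const_mul s).add (h1.const_mul w)).neg).mul h2
  refine HasDerivAt.congr_deriv (f := d1 s w) h3 ?_
  have e : (-s - 1 - 1 : ℝ) = -s - 2 := by ring
  rw [d2, e]
  simp only [Pi.neg_apply, Pi.add_apply]
  ring

theorem mul_exp_le {x : ℝ} (_ : 0 ≤ x) : x * Real.exp (-x) ≤ 1 := by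
  have h := Real.add_one_le_exp x
  have h2 : Real.exp (-x) * Real.exp x = 1 := by rw [← Real.exp_add]; simp
  have h3 := Real.exp_pos (-x)
  nlinarith

theorem sq_mul_exp_le {x : ℝ} (hx : 0 ≤ x) : x ^ 2 * Real.exp (-x) ≤ 2 := by
  have h := Real.quadratic_le_exp_of_nonneg hx
  have h2 : Real.exp (-x) * Real.exp x = 1 := by rw [← Real.exp_add]; simp
  have h3 := Real.exp_pos (-x)
  nlinarith

theorem exp_le_one' {x : ℝ} (hx : 0 ≤ x) : Real.exp (-x) ≤ 1 := by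
  rw [Real.exp_le_one_iff]; linarith

theorem d1_bound {s w r : ℝ} (h0 : 0 < s) (hw : 0 ≤ w) (hr : 0 < r) :
    |d1 s w r| ≤ (s + 1) * r ^ (-s - 1) := by
  have hwr : 0 ≤ w * r := mul_nonneg hw hr.le
  have e1 := mul_exp_le hwr
  have e0 := exp_le_one' hwr
  have e00 := Real.exp_pos (-(w * r))
  have hp : 0 < r ^ (-s - 1) := Real.rpow_pos_of_pos hr _
  have hq : r ^ (-s) = r ^ (-s - 1) * r := by
    rw [← Real.rpow_add_one hr.ne']; congr 1; ring
  rw [d1, abs_mul, abs_neg, hq, neg_mul, abs_of_pos e00, abs_of_nonneg (by positivity)]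
  have : (s * r ^ (-s - 1) + w * (r ^ (-s - 1) * r)) * Real.exp (-(w * r))
      = (s * Real.exp (-(w * r)) + (w * r) * Real.exp (-(w * r))) * r ^ (-s - 1) := by ring
  rw [this]
  refine mul_le_mul_of_nonneg_right ?_ hp.le
  nlinarith

theorem d2_bound {s w r : ℝ} (h0 : 0 < s) (hw : 0 ≤ w) (hr : 0 < r) :
    |d2 s w r| ≤ (s + 1) * (s + 2) * r ^ (-s - 2) := by
  have hwr : 0 ≤ w * r := mul_nonneg hw hr.le
  have e1 := mul_exp_le hwr
  have e2 := sq_mul_exp_le hwr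
  have e0 := exp_le_one' hwr
  have e00 := Real.exp_pos (-(w * r))
  have hp : 0 < r ^ (-s - 2) := Real.rpow_pos_of_pos hr _
  have hq1 : r ^ (-s - 1) = r ^ (-s - 2) * r := by
    rw [← Real.rpow_add_one hr.ne']; congr 1; ring
  have hq : r ^ (-s) = r ^ (-s - 2) * r ^ 2 := by
    rw [← Real.rpow_natCast r 2, ← Real.rpow_add hr]; congr 1; push_cast; ring
  rw [d2, abs_mul, hq, hq1, neg_mul, abs_of_pos e00, abs_of_nonneg (by positivity)]
  have : (s * (s + 1) * r ^ (-s - 2) + 2 * s * w * (r ^ (-s - 2) * r) +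
      w ^ 2 * (r ^ (-s - 2) * r ^ 2)) * Real.exp (-(w * r))
      = (s * (s + 1) * Real.exp (-(w * r)) + 2 * s * ((w * r) * Real.exp (-(w * r)))
        + (w * r) ^ 2 * Real.exp (-(w * r))) * r ^ (-s - 2) := by ring
  rw [this]
  refine mul_le_mul_of_nonneg_right ?_ hp.le
  have h1 : s * (s + 1) * Real.exp (-(w * r)) ≤ s * (s + 1) * 1 :=
    mul_le_mul_of_nonneg_left e0 (by positivity)
  have h2 : 2 * s * ((w * r) * Real.exp (-(w * r))) ≤ 2 * s * 1 :=
    mul_le_mul_of_nonneg_left e1 (by positivity)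
  nlinarith

/-- first order Taylor estimate for the damped kernel -/
theorem taylor {s w r x L : ℝ} (h0 : 0 < s) (hw : 0 ≤ w) (hr : 0 < r) (hx : |x - r| ≤ L)
    (hL : L ≤ r / 2) :
    |ph s w x - ph s w r - d1 s w r * (x - r)| ≤
      (s + 1) * (s + 2) * (r / 2) ^ (-s - 2) * L ^ 2 := by
  set M := (s + 1) * (s + 2) * (r / 2) ^ (-s - 2) with hM
  have hM0 : 0 ≤ M := by positivity
  have hL0 : 0 ≤ L := (abs_nonneg _).trans hx
  set S : Set ℝ := Icc (r - L) (r + L) with hS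
  have hS0 : ∀ t ∈ S, r / 2 ≤ t := fun t ht => by have := ht.1; linarith
  have hSp : ∀ t ∈ S, 0 < t := fun t ht => by have := hS0 t ht; linarith
  have hconv : Convex ℝ S := convex_Icc _ _
  have hrS : r ∈ S := ⟨by linarith, by linarith⟩
  have hxS : x ∈ S := by
    rw [abs_le] at hx
    exact ⟨by linarith, by linarith⟩
  have hd2 : ∀ t ∈ S, ‖d2 s w t‖ ≤ M := by
    intro t ht
    rw [Real.norm_eq_abs]
    refine (d2_bound h0 hw (hSp t ht)).trans ?_
    rw [hM]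
    refine mul_le_mul_of_nonneg_left ?_ (by positivity)
    exact Real.rpow_le_rpow_of_nonpos (by linarith) (hS0 t ht) (by linarith)
  have hlip : ∀ t ∈ S, ‖d1 s w t - d1 s w r‖ ≤ M * L := by
    intro t ht
    have h := hconv.norm_image_sub_le_of_norm_hasDerivWithin_le (f := d1 s w) (f' := d2 s w)
      (fun u hu => (hasDerivAt_d1 (hSp u hu)).hasDerivWithinAt) hd2 hrS ht
    refine h.trans (mul_le_mul_of_nonneg_left ?_ hM0)
    rw [Real.norm_eq_abs, abs_le]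
    exact ⟨by linarith [ht.1], by linarith [ht.2]⟩
  have h := hconv.norm_image_sub_le_of_norm_hasDerivWithin_le
    (f := fun t => ph s w t - d1 s w r * t) (f' := fun t => d1 s w t - d1 s w r * 1)
    (fun u hu => ((hasDerivAt_ph (hSp u hu)).sub
      ((hasDerivAt_id u).const_mul (d1 s w r))).hasDerivWithinAt)
    (C := M * L) (fun u hu => by simpa using hlip u hu) hrS hxS
  have e : ph s w x - ph s w r - d1 s w r * (x - r)
      = (ph s w x - d1 s w r * x) - (ph s w r - d1 s w r * r) := by ring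
  rw [e, ← Real.norm_eq_abs]
  refine h.trans ?_
  have : M * L ^ 2 = M * L * L := by ring
  rw [this]
  exact mul_le_mul_of_nonneg_left hx (by positivity)

/-- second difference estimate -/
theorem second_diff {s w B : ℝ} (h0 : 0 < s) (hw : 0 ≤ w) {y v : ℂ} (hv : ‖v‖ ≤ B)
    (hB : B ≤ ‖y‖ / 2) (hy : 0 < ‖y‖) :
    |2 * ph s w ‖y‖ - (ph s w ‖y + v‖ + ph s w ‖y - v‖)| ≤
      (2 * ((s + 1) * (s + 2) * (1 / 2) ^ (-s - 2)) + (s + 1)) * B ^ 2 * ‖y‖ ^ (-(s + 2)) := by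
  have hB0 : 0 ≤ B := (norm_nonneg _).trans hv
  set r := ‖y‖ with hr
  have h1 : |‖y + v‖ - r| ≤ B := by
    refine (abs_norm_sub_norm_le _ _).trans ?_
    simpa using hv
  have h2 : |‖y - v‖ - r| ≤ B := by
    refine (abs_norm_sub_norm_le _ _).trans ?_
    simpa using hv
  have t1 := taylor (s := s) (w := w) h0 hw hy h1 hB
  have t2 := taylor (s := s) (w := w) h0 hw hy h2 hB
  have hpar : ‖y + v‖ * ‖y + v‖ + ‖y - v‖ * ‖y - v‖ = 2 * (r * r + ‖v‖ * ‖v‖) :=
    by simpa [pow_two] using parallelogram_law_with_norm ℝ y v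
  have hlow : 2 * r ≤ ‖y + v‖ + ‖y - v‖ := by
    have := norm_add_le (y + v) (y - v)
    have e : y + v + (y - v) = (2 : ℝ) • y := by
      rw [two_smul]; ring
    rw [e, norm_smul] at this
    simpa using this
  have hup : r * (‖y + v‖ + ‖y - v‖ - 2 * r) ≤ B ^ 2 := by
    have hvv : ‖v‖ * ‖v‖ ≤ B ^ 2 := by nlinarith [norm_nonneg v]
    nlinarith [sq_nonneg (‖y + v‖ - ‖y - v‖), sq_nonneg (‖y + v‖ + ‖y - v‖ - 2 * r)]
  set D := ‖y + v‖ + ‖y - v‖ - 2 * r with hD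
  have hD0 : 0 ≤ D := by linarith
  have hpow1 : r ^ (-s - 1) = r ^ (-s - 2) * r := by
    rw [← Real.rpow_add_one hy.ne']; congr 1; ring
  have hd : |d1 s w r * D| ≤ (s + 1) * B ^ 2 * r ^ (-(s + 2)) := by
    rw [abs_mul, abs_of_nonneg hD0]
    have h3 : |d1 s w r| * D ≤ (s + 1) * r ^ (-s - 1) * D :=
      mul_le_mul_of_nonneg_right (d1_bound h0 hw hy) hD0
    refine h3.trans ?_
    rw [hpow1, show (-(s + 2) : ℝ) = -s - 2 by ring]
    have : 0 < r ^ (-s - 2) := Real.rpow_pos_of_pos hy _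
    calc (s + 1) * (r ^ (-s - 2) * r) * D = ((s + 1) * r ^ (-s - 2)) * (r * D) := by ring
      _ ≤ ((s + 1) * r ^ (-s - 2)) * B ^ 2 := mul_le_mul_of_nonneg_left hup (by positivity)
      _ = _ := by ring
  have hpow2 : (r / 2) ^ (-s - 2) = (1 / 2) ^ (-s - 2) * r ^ (-(s + 2)) := by
    rw [show (-(s + 2) : ℝ) = -s - 2 by ring, ← Real.mul_rpow (by norm_num) hy.le]
    congr 1; ring
  rw [hpow2] at t1 t2
  have e : 2 * ph s w r - (ph s w ‖y + v‖ + ph s w ‖y - v‖) =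
      -(ph s w ‖y + v‖ - ph s w r - d1 s w r * (‖y + v‖ - r))
      + -(ph s w ‖y - v‖ - ph s w r - d1 s w r * (‖y - v‖ - r)) + -(d1 s w r * D) := by
    rw [hD]; ring
  rw [e]
  refine (abs_add_le _ _).trans ?_
  have h4 := abs_add_le (-(ph s w ‖y + v‖ - ph s w r - d1 s w r * (‖y + v‖ - r)))
    (-(ph s w ‖y - v‖ - ph s w r - d1 s w r * (‖y - v‖ - r)))
  rw [abs_neg, abs_neg] at h4
  rw [abs_neg]
  have h5 : (2 * ((s + 1) * (s + 2) * (1 / 2) ^ (-s - 2)) + (s + 1)) * B ^ 2 * r ^ (-(s + 2))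
      = (s + 1) * (s + 2) * ((1 / 2) ^ (-s - 2) * r ^ (-(s + 2))) * B ^ 2
        + (s + 1) * (s + 2) * ((1 / 2) ^ (-s - 2) * r ^ (-(s + 2))) * B ^ 2
        + (s + 1) * B ^ 2 * r ^ (-(s + 2)) := by ring
  rw [h5]
  linarith

/-- the cell is symmetric up to a null set -/
theorem integral_Sq_neg (F : ℝ × ℝ → ℝ) : ∫ u in Sq, F (-u) = ∫ u in Sq, F u := by
  set Q : Set (ℝ × ℝ) := Icc (-(1 / 2)) (1 / 2) ×ˢ Icc (-(1 / 2)) (1 / 2) with hQ
  have hae : (Sq : Set (ℝ × ℝ)) =ᵐ[volume] Q := by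
    rw [Sq, hQ, Measure.volume_eq_prod]
    exact Measure.set_prod_ae_eq Ico_ae_eq_Icc Ico_ae_eq_Icc
  have hQm : MeasurableSet Q := measurableSet_Icc.prod measurableSet_Icc
  rw [setIntegral_congr_set hae, setIntegral_congr_set hae, ← integral_indicator hQm,
    ← integral_indicator hQm, ← integral_neg_eq_self (Q.indicator F)]
  refine integral_congr_ae (Eventually.of_forall fun u => ?_)
  have hmem : u ∈ Q ↔ -u ∈ Q := by
    simp only [hQ, Set.mem_prod, mem_Icc, Prod.fst_neg, Prod.snd_neg]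
    constructor <;> rintro ⟨⟨h1, h2⟩, h3, h4⟩ <;> exact ⟨⟨by linarith, by linarith⟩,
      by linarith, by linarith⟩
  simp only [indicator]
  by_cases hu : u ∈ Q
  · rw [if_pos hu, if_pos (hmem.1 hu)]
  · rw [if_neg hu, if_neg (fun h => hu (hmem.2 h))]

theorem norm_cell_le {a b : ℂ} {u : ℝ × ℝ} (hu : u ∈ Sq) :
    ‖(u.1 * a + u.2 * b : ℂ)‖ ≤ ‖a‖ + ‖b‖ := by
  obtain ⟨⟨h1, h2⟩, h3, h4⟩ := hu
  have e1 : |u.1| ≤ 1 := abs_le.2 ⟨by linarith, by linarith⟩
  have e2 : |u.2| ≤ 1 := abs_le.2 ⟨by linarith, by linarith⟩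
  refine (norm_add_le _ _).trans ?_
  rw [norm_mul, norm_mul, Complex.norm_real, Complex.norm_real, Real.norm_eq_abs,
    Real.norm_eq_abs]
  refine add_le_add ?_ ?_
  · exact mul_le_of_le_one_left (norm_nonneg _) e1
  · exact mul_le_of_le_one_left (norm_nonneg _) e2

theorem cell_diff {s : ℝ} (h0 : 0 < s) (h2 : s < 2) (a b : ℂ) : ∃ C R₀ : ℝ, 0 < C ∧ 0 < R₀ ∧
    ∀ w : ℝ, 0 ≤ w → w ≤ 1 → ∀ y : ℂ, R₀ ≤ ‖y‖ →
      |ph s w ‖y‖ - ∫ u in Sq, ph s w ‖y + (u.1 * a + u.2 * b)‖| ≤ C * ‖y‖ ^ (-(s + 2)) := by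
  set B := ‖a‖ + ‖b‖ with hBdef
  have hB0 : 0 ≤ B := by positivity
  set C := (2 * ((s + 1) * (s + 2) * (1 / 2 : ℝ) ^ (-s - 2)) + (s + 1)) * B ^ 2 with hC
  have hC0 : 0 ≤ C := by positivity
  refine ⟨C + 1, 2 * B + 1, by linarith, by linarith, fun w hw _ y hy => ?_⟩
  have hy0 : 0 < ‖y‖ := by linarith
  have hBy : B ≤ ‖y‖ / 2 := by linarith
  set v : ℝ × ℝ → ℂ := fun u => u.1 * a + u.2 * b with hv
  have hvm : Measurable v := by
    have hc : Continuous v := by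
      rw [hv]
      fun_prop
    exact hc.measurable
  have hvn : ∀ u ∈ Sq, ‖v u‖ ≤ B := fun u hu => norm_cell_le hu
  have hvneg : ∀ u, v (-u) = -v u := by
    intro u
    simp only [hv, Prod.fst_neg, Prod.snd_neg]
    push_cast
    ring
  have hbd : ∀ z : ℂ, ‖y‖ / 2 ≤ ‖z‖ → ‖ph s w ‖z‖‖ ≤ (‖y‖ / 2) ^ (-s) := by
    intro z hz
    rw [Real.norm_eq_abs, abs_of_nonneg (ph_nonneg (norm_nonneg _)), ph, K]
    have h1 : ‖z‖ ^ (-s) ≤ (‖y‖ / 2) ^ (-s) :=
      Real.rpow_le_rpow_of_nonpos (by linarith) hz (by linarith)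
    have h3 : Real.exp (-w * ‖z‖) ≤ 1 := by
      rw [neg_mul]; exact exp_le_one' (mul_nonneg hw (norm_nonneg _))
    calc ‖z‖ ^ (-s) * Real.exp (-w * ‖z‖) ≤ (‖y‖ / 2) ^ (-s) * 1 :=
          mul_le_mul h1 h3 (Real.exp_pos _).le (by positivity)
      _ = _ := mul_one _
  have hfin : (volume : Measure (ℝ × ℝ)) Sq < ⊤ := by rw [volume_Sq]; exact ENNReal.one_lt_top
  have hint1 : IntegrableOn (fun u : ℝ × ℝ => ph s w ‖y + v u‖) Sq := by
    refine Measure.integrableOn_of_bounded (M := (‖y‖ / 2) ^ (-s)) hfin.ne ?_ ?_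
    · exact ((measurable_ph s w).comp (measurable_const.add hvm).norm).aestronglyMeasurable
    · rw [ae_restrict_iff' measurableSet_Sq]
      refine Eventually.of_forall fun u hu => hbd _ ?_
      have := norm_sub_norm_le y (-v u)
      rw [sub_neg_eq_add, norm_neg] at this
      linarith [hvn u hu]
  have hint2 : IntegrableOn (fun u : ℝ × ℝ => ph s w ‖y - v u‖) Sq := by
    refine Measure.integrableOn_of_bounded (M := (‖y‖ / 2) ^ (-s)) hfin.ne ?_ ?_
    · exact ((measurable_ph s w).comp (measurable_const.sub hvm).norm).aestronglyMeasurable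
    · rw [ae_restrict_iff' measurableSet_Sq]
      refine Eventually.of_forall fun u hu => hbd _ ?_
      have := norm_sub_norm_le y (v u)
      linarith [hvn u hu]
  have hsym : ∫ u in Sq, ph s w ‖y - v u‖ = ∫ u in Sq, ph s w ‖y + v u‖ := by
    rw [← integral_Sq_neg (fun u => ph s w ‖y + v u‖)]
    refine integral_congr_ae (Eventually.of_forall fun u => ?_)
    simp only [hvneg, sub_eq_add_neg]
  have hconst : ∫ _ in Sq, ph s w ‖y‖ = ph s w ‖y‖ := by
    rw [setIntegral_const, Measure.real, volume_Sq]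
    simp
  have hconsti : IntegrableOn (fun _ : ℝ × ℝ => ph s w ‖y‖) Sq :=
    integrableOn_const hfin.ne
  have key : 2 * (ph s w ‖y‖ - ∫ u in Sq, ph s w ‖y + v u‖) =
      ∫ u in Sq, (2 * ph s w ‖y‖ - (ph s w ‖y + v u‖ + ph s w ‖y - v u‖)) := by
    have e1 := integral_sub (hconsti.const_mul 2) (hint1.add hint2)
    have e2 := integral_add hint1 hint2
    have e3 : ∫ u in Sq, ((fun u => ph s w ‖y + v u‖) + fun u => ph s w ‖y - v u‖) u
        = ∫ u in Sq, (ph s w ‖y + v u‖ + ph s w ‖y - v u‖) := rfl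
    have e4 : ∫ u in Sq, (2 * ph s w ‖y‖ - (ph s w ‖y + v u‖ + ph s w ‖y - v u‖))
        = ∫ u in Sq, (2 * ph s w ‖y‖ -
          ((fun u => ph s w ‖y + v u‖) + fun u => ph s w ‖y - v u‖) u) := rfl
    rw [e4, e1, e3, e2, integral_const_mul, hconst, hsym]
    ring
  have hbound : ‖∫ u in Sq, (2 * ph s w ‖y‖ - (ph s w ‖y + v u‖ + ph s w ‖y - v u‖))‖
      ≤ (C * ‖y‖ ^ (-(s + 2))) * (volume : Measure (ℝ × ℝ)).real Sq := by
    refine norm_setIntegral_le_of_norm_le_const hfin fun u hu => ?_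
    rw [Real.norm_eq_abs]
    exact second_diff h0 hw (hvn u hu) hBy hy0
  have hvol : (volume : Measure (ℝ × ℝ)).real Sq = 1 := by
    rw [Measure.real, volume_Sq]; simp
  rw [hvol, mul_one, ← key, Real.norm_eq_abs, abs_mul, abs_of_pos (by norm_num : (0:ℝ) < 2)]
    at hbound
  have hpos : 0 < ‖y‖ ^ (-(s + 2)) := Real.rpow_pos_of_pos hy0 _
  have habs := abs_nonneg (ph s w ‖y‖ - ∫ u in Sq, ph s w ‖y + v u‖)
  have hfinal : |ph s w ‖y‖ - ∫ u in Sq, ph s w ‖y + v u‖| ≤ (C + 1) * ‖y‖ ^ (-(s + 2)) := by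
    nlinarith
  exact hfinal

end Pool.Agent.Helper91.RZ2
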